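import Pool.Agent.Helper61.QT.GoalsG

/-!
# Project QT (MP_0ebdb3_gt), packet QT-T1: torus-invariant metrics on the planes of the radial fields
-/

set_option autoImplicit false

open Set

namespace Pool.Agent.Helper93.QT

open Pool.Agent.Helper61 Pool.Agent.Helper61.QG Pool.Agent.Helper61.QT
open Pool.Agent.Helper61.QS (V En rk R4 IsCurv SecNN Gam dd)
open Pool.Agent.Helper61.QM (Model W2 Mab pol2 act2 o1 o2 rot IsRe IsIm)

/-- projection to the first two coordinates -/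
noncomputable def pr : R4 →L[ℝ] ℝ × ℝ :=
  (ContinuousLinearMap.fst ℝ ℝ (ℝ × ℝ × ℝ)).prod
    ((ContinuousLinearMap.fst ℝ ℝ (ℝ × ℝ)).comp (ContinuousLinearMap.snd ℝ ℝ (ℝ × ℝ × ℝ)))

theorem fd_pr {f : ℝ × ℝ → ℝ} (hf : Differentiable ℝ f) (x a : R4) :
    fderiv ℝ (fun y : R4 => f (y.1, y.2.1)) x a = fderiv ℝ f (x.1, x.2.1) (a.1, a.2.1) := by
  have h : HasFDerivAt (fun y : R4 => f (pr y)) ((fderiv ℝ f (pr x)).comp pr) x :=
    (hf (pr x)).hasFDerivAt.comp x pr.hasFDerivAt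
  have h2 : fderiv ℝ (fun y : R4 => f (pr y)) x a = ((fderiv ℝ f (pr x)).comp pr) a := by
    rw [h.fderiv]
  exact h2

theorem diff_d1 {E : ℝ × ℝ → ℝ} (hE : ContDiff ℝ 2 E) : Differentiable ℝ (d1 E) := by
  have h : ContDiff ℝ 1 (fun z => fderiv ℝ E z (1, 0)) :=
    (hE.fderiv_right (m := 1) (by norm_num)).clm_apply contDiff_const
  exact h.differentiable (by norm_num)

theorem diff_d2 {E : ℝ × ℝ → ℝ} (hE : ContDiff ℝ 2 E) : Differentiable ℝ (d2 E) := by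
  have h : ContDiff ℝ 1 (fun z => fderiv ℝ E z (0, 1)) :=
    (hE.fderiv_right (m := 1) (by norm_num)).clm_apply contDiff_const
  exact h.differentiable (by norm_num)

theorem diff_c2 {E : ℝ × ℝ → ℝ} (hE : ContDiff ℝ 2 E) : Differentiable ℝ E :=
  hE.differentiable (by norm_num)

theorem dec (c : R4) :
    c = c.1 • ((1, 0, 0, 0) : R4) + c.2.1 • ((0, 1, 0, 0) : R4) + ((0, 0, c.2.2.1, c.2.2.2) : R4) := by
  obtain ⟨c1, c2, c3, c4⟩ := c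
  simp

/-- expansion of a bilinear form with vanishing mixed block -/
theorem expand (g : R4 →L[ℝ] R4 →L[ℝ] ℝ) {E F G : ℝ}
    (h11 : g (1, 0, 0, 0) (1, 0, 0, 0) = E) (h12 : g (1, 0, 0, 0) (0, 1, 0, 0) = F)
    (h21 : g (0, 1, 0, 0) (1, 0, 0, 0) = F) (h22 : g (0, 1, 0, 0) (0, 1, 0, 0) = G)
    (hz1 : ∀ c d : ℝ, g (1, 0, 0, 0) (0, 0, c, d) = 0)
    (hz2 : ∀ c d : ℝ, g (0, 1, 0, 0) (0, 0, c, d) = 0)
    (hz1' : ∀ c d : ℝ, g (0, 0, c, d) (1, 0, 0, 0) = 0)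
    (hz2' : ∀ c d : ℝ, g (0, 0, c, d) (0, 1, 0, 0) = 0) (c c' : R4) :
    g c c' = c.1 * c'.1 * E + (c.1 * c'.2.1 + c.2.1 * c'.1) * F + c.2.1 * c'.2.1 * G +
      g (0, 0, c.2.2.1, c.2.2.2) (0, 0, c'.2.2.1, c'.2.2.2) := by
  have h : g c c' = g (c.1 • ((1, 0, 0, 0) : R4) + c.2.1 • ((0, 1, 0, 0) : R4) +
      ((0, 0, c.2.2.1, c.2.2.2) : R4)) (c'.1 • ((1, 0, 0, 0) : R4) +
      c'.2.1 • ((0, 1, 0, 0) : R4) + ((0, 0, c'.2.2.1, c'.2.2.2) : R4)) := by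
    rw [← dec c, ← dec c']
  rw [h]
  simp only [map_add, map_smul, add_apply, _root_.smul_apply, smul_eq_mul,
    h11, h12, h21, h22, hz1, hz2, hz1', hz2']
  ring

section form

variable (h : R4 → R4 →L[ℝ] R4 →L[ℝ] ℝ) (E F G : ℝ × ℝ → ℝ)

/-- a metric that does not depend on the last two coordinates and is block diagonal -/
structure Blk : Prop where
  h11 : ∀ y, h y (1, 0, 0, 0) (1, 0, 0, 0) = E (y.1, y.2.1)
  h12 : ∀ y, h y (1, 0, 0, 0) (0, 1, 0, 0) = F (y.1, y.2.1)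
  h21 : ∀ y, h y (0, 1, 0, 0) (1, 0, 0, 0) = F (y.1, y.2.1)
  h22 : ∀ y, h y (0, 1, 0, 0) (0, 1, 0, 0) = G (y.1, y.2.1)
  hz1 : ∀ (y : R4) (c d : ℝ), h y (1, 0, 0, 0) (0, 0, c, d) = 0
  hz2 : ∀ (y : R4) (c d : ℝ), h y (0, 1, 0, 0) (0, 0, c, d) = 0
  hz1' : ∀ (y : R4) (c d : ℝ), h y (0, 0, c, d) (1, 0, 0, 0) = 0
  hz2' : ∀ (y : R4) (c d : ℝ), h y (0, 0, c, d) (0, 1, 0, 0) = 0

variable {h E F G}

theorem fd_zero {f : R4 → ℝ} (hf : ∀ y, f y = 0) (x a : R4) : fderiv ℝ f x a = 0 := by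
  have : f = fun _ => 0 := funext hf
  rw [this]
  simp

theorem fd_of {f : R4 → ℝ} {E : ℝ × ℝ → ℝ} (hE : Differentiable ℝ E)
    (hf : ∀ y, f y = E (y.1, y.2.1)) (x a : R4) :
    fderiv ℝ f x a = fderiv ℝ E (x.1, x.2.1) (a.1, a.2.1) := by
  have : f = fun y => E (y.1, y.2.1) := funext hf
  rw [this]
  exact fd_pr hE x a

theorem gam_zero {u v : R4} {W : ℝ × ℝ → ℝ} (hW : Differentiable ℝ W)
    (hu : ∀ (y : R4) (c d : ℝ), h y u (0, 0, c, d) = 0)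
    (hv : ∀ (y : R4) (c d : ℝ), h y v (0, 0, c, d) = 0)
    (huv : ∀ y, h y u v = W (y.1, y.2.1)) (x : R4) (c d : ℝ) :
    Gam h x u v (0, 0, c, d) = 0 := by
  unfold Gam
  rw [fd_zero (fun y => hv y c d), fd_zero (fun y => hu y c d), fd_of hW huv]
  have : fderiv ℝ W (x.1, x.2.1) ((0 : ℝ), (0 : ℝ)) = 0 := map_zero _
  change (0 + 0 - fderiv ℝ W (x.1, x.2.1) ((0 : ℝ), (0 : ℝ))) / 2 = 0
  rw [this]
  norm_num

/-- a vector representing a functional that vanishes on the last two coordinates -/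
theorem rep (hB : Blk h E F G) (x : R4)
    (hpos : ∀ c d : ℝ, h x (0, 0, c, d) (0, 0, c, d) = 0 → c = 0 ∧ d = 0)
    {c : R4} {l : R4 → ℝ} (hc : ∀ y, h x c y = l y) (hl : ∀ c d : ℝ, l (0, 0, c, d) = 0) :
    c.2.2.1 = 0 ∧ c.2.2.2 = 0 ∧
    c.1 * E (x.1, x.2.1) + c.2.1 * F (x.1, x.2.1) = l (1, 0, 0, 0) ∧
    c.1 * F (x.1, x.2.1) + c.2.1 * G (x.1, x.2.1) = l (0, 1, 0, 0) := by
  have hex := expand (h x) (hB.h11 x) (hB.h12 x) (hB.h21 x) (hB.h22 x) (hB.hz1 x) (hB.hz2 x)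
    (hB.hz1' x) (hB.hz2' x)
  have h1 := hex c (0, 0, c.2.2.1, c.2.2.2)
  rw [hc, hl] at h1
  have h2 : h x (0, 0, c.2.2.1, c.2.2.2) (0, 0, c.2.2.1, c.2.2.2) = 0 := by
    simpa using h1.symm
  obtain ⟨h3, h4⟩ := hpos _ _ h2
  have hz : ((0 : ℝ), (0 : ℝ), (0 : ℝ), (0 : ℝ)) = (0 : R4) := rfl
  refine ⟨h3, h4, ?_, ?_⟩
  · have h5 := hex c (1, 0, 0, 0)
    rw [hc] at h5
    rw [h5, h3, h4]
    simp [hz]
  · have h5 := hex c (0, 1, 0, 0)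
    rw [hc] at h5
    rw [h5, h3, h4]
    simp [hz]

/-- the value of the form -/
theorem val (hB : Blk h E F G) (x : R4) {c c' : R4} (h3 : c.2.2.1 = 0) (h4 : c.2.2.2 = 0)
    (hdet : E (x.1, x.2.1) * G (x.1, x.2.1) - F (x.1, x.2.1) ^ 2 ≠ 0) {p q p' q' : ℝ}
    (hp : c.1 * E (x.1, x.2.1) + c.2.1 * F (x.1, x.2.1) = p)
    (hq : c.1 * F (x.1, x.2.1) + c.2.1 * G (x.1, x.2.1) = q)
    (hp' : c'.1 * E (x.1, x.2.1) + c'.2.1 * F (x.1, x.2.1) = p')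
    (hq' : c'.1 * F (x.1, x.2.1) + c'.2.1 * G (x.1, x.2.1) = q') :
    h x c c' = (G (x.1, x.2.1) * p * p' - F (x.1, x.2.1) * (p * q' + q * p') +
      E (x.1, x.2.1) * q * q') / (E (x.1, x.2.1) * G (x.1, x.2.1) - F (x.1, x.2.1) ^ 2) := by
  have hex := expand (h x) (hB.h11 x) (hB.h12 x) (hB.h21 x) (hB.h22 x) (hB.hz1 x) (hB.hz2 x)
    (hB.hz1' x) (hB.hz2' x) c c'
  have hz : ((0 : ℝ), (0 : ℝ), (0 : ℝ), (0 : ℝ)) = (0 : R4) := rfl
  rw [h3, h4, hz, map_zero, zero_apply, add_zero] at hex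
  rw [eq_div_iff hdet, hex, ← hp, ← hq, ← hp', ← hq']
  ring

theorem curv_form (hB : Blk h E F G) (hE : ContDiff ℝ 2 E) (hF : ContDiff ℝ 2 F)
    (hG : ContDiff ℝ 2 G) (x : R4)
    (hpos : ∀ c d : ℝ, h x (0, 0, c, d) (0, 0, c, d) = 0 → c = 0 ∧ d = 0)
    (hdet : E (x.1, x.2.1) * G (x.1, x.2.1) - F (x.1, x.2.1) ^ 2 ≠ 0)
    (K : ℝ) (hK : IsCurv h x (1, 0, 0, 0) (0, 1, 0, 0) K) : K = kap2 E F G (x.1, x.2.1) := by
  obtain ⟨cab, caa, cbb, hab, haa, hbb, rfl⟩ := hK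
  have dE := diff_c2 hE
  have dF := diff_c2 hF
  have dG := diff_c2 hG
  obtain ⟨ab3, ab4, abp, abq⟩ := rep hB x hpos hab
    (fun c d => gam_zero dF hB.hz1 hB.hz2 hB.h12 x c d)
  obtain ⟨aa3, aa4, aap, aaq⟩ := rep hB x hpos haa
    (fun c d => gam_zero dE hB.hz1 hB.hz1 hB.h11 x c d)
  obtain ⟨bb3, bb4, bbp, bbq⟩ := rep hB x hpos hbb
    (fun c d => gam_zero dG hB.hz2 hB.hz2 hB.h22 x c d)
  have e1 : Gam h x (1, 0, 0, 0) (0, 1, 0, 0) (1, 0, 0, 0) = d2 E (x.1, x.2.1) / 2 := by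
    unfold Gam
    rw [fd_of dF hB.h21, fd_of dE hB.h11, fd_of dF hB.h12]
    unfold d2
    ring
  have e2 : Gam h x (1, 0, 0, 0) (0, 1, 0, 0) (0, 1, 0, 0) = d1 G (x.1, x.2.1) / 2 := by
    unfold Gam
    rw [fd_of dG hB.h22, fd_of dF hB.h12]
    unfold d1
    ring
  have e3 : Gam h x (1, 0, 0, 0) (1, 0, 0, 0) (1, 0, 0, 0) = d1 E (x.1, x.2.1) / 2 := by
    unfold Gam
    rw [fd_of dE hB.h11]
    unfold d1
    ring
  have e4 : Gam h x (1, 0, 0, 0) (1, 0, 0, 0) (0, 1, 0, 0) =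
      d1 F (x.1, x.2.1) - d2 E (x.1, x.2.1) / 2 := by
    unfold Gam
    rw [fd_of dF hB.h12, fd_of dE hB.h11]
    unfold d1 d2
    ring
  have e5 : Gam h x (0, 1, 0, 0) (0, 1, 0, 0) (1, 0, 0, 0) =
      d2 F (x.1, x.2.1) - d1 G (x.1, x.2.1) / 2 := by
    unfold Gam
    rw [fd_of dF hB.h21, fd_of dG hB.h22]
    unfold d1 d2
    ring
  have e6 : Gam h x (0, 1, 0, 0) (0, 1, 0, 0) (0, 1, 0, 0) = d2 G (x.1, x.2.1) / 2 := by
    unfold Gam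
    rw [fd_of dG hB.h22]
    unfold d2
    ring
  rw [e1] at abp
  rw [e2] at abq
  rw [e3] at aap
  rw [e4] at aaq
  rw [e5] at bbp
  rw [e6] at bbq
  have v1 := val hB x ab3 ab4 hdet abp abq abp abq
  have v2 := val hB x aa3 aa4 hdet aap aaq bbp bbq
  have f1 : dd (fun y => h y (0, 1, 0, 0) (0, 1, 0, 0)) x (1, 0, 0, 0) (1, 0, 0, 0) =
      d1 (d1 G) (x.1, x.2.1) := by
    unfold dd
    rw [fd_of (diff_d1 hG) (fun y => fd_of dG hB.h22 y (1, 0, 0, 0))]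
    rfl
  have f2 : dd (fun y => h y (1, 0, 0, 0) (1, 0, 0, 0)) x (0, 1, 0, 0) (0, 1, 0, 0) =
      d2 (d2 E) (x.1, x.2.1) := by
    unfold dd
    rw [fd_of (diff_d2 hE) (fun y => fd_of dE hB.h11 y (0, 1, 0, 0))]
    rfl
  have f3 : dd (fun y => h y (1, 0, 0, 0) (0, 1, 0, 0)) x (1, 0, 0, 0) (0, 1, 0, 0) =
      d1 (d2 F) (x.1, x.2.1) := by
    unfold dd
    rw [fd_of (diff_d2 hF) (fun y => fd_of dF hB.h12 y (0, 1, 0, 0))]
    rfl
  rw [f1, f2, f3, v1, v2]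
  unfold kap2
  field_simp
  ring

end form

section main

/-- the Jacobian of the polar coordinates -/
def JacP : Prop := ∀ x c : R4, fderiv ℝ pol2 x c =
    ((-(Real.sin x.1 * c.1 : ℂ), Complex.exp (x.2.2.1 * Complex.I) *
        (Real.cos x.1 * c.1 + Complex.I * Real.sin x.1 * c.2.2.1)),
      (-(Real.sin x.2.1 * c.2.1 : ℂ), Complex.exp (x.2.2.2 * Complex.I) *
        (Real.cos x.2.1 * c.2.1 + Complex.I * Real.sin x.2.1 * c.2.2.2)))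

theorem exp0 : Complex.exp (((0 : ℝ) : ℂ) * Complex.I) = 1 := by
  rw [Complex.ofReal_zero, zero_mul, Complex.exp_zero]

theorem pol_rot (x : R4) : pol2 x = rot ((1, Complex.exp (x.2.2.1 * Complex.I)),
    (1, Complex.exp (x.2.2.2 * Complex.I))) (pol2 (x.1, x.2.1, 0, 0)) := by
  unfold pol2 rot
  simp only [exp0, one_mul]

theorem D_rot (hD : JacP) (x u : R4) : fderiv ℝ pol2 x u =
    rot ((1, Complex.exp (x.2.2.1 * Complex.I)), (1, Complex.exp (x.2.2.2 * Complex.I)))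
      (fderiv ℝ pol2 (x.1, x.2.1, 0, 0) u) := by
  rw [hD x u, hD (x.1, x.2.1, 0, 0) u]
  unfold rot
  simp only [exp0, one_mul]

theorem pol_pi1 (r s : ℝ) : pol2 (r + Real.pi, s, 0, 0) =
    rot ((-1, -1), (1, 1)) (pol2 (r, s, 0, 0)) := by
  unfold pol2 rot
  simp only [exp0, one_mul, Real.cos_add_pi, Real.sin_add_pi, Complex.ofReal_neg, neg_mul]

theorem pol_pi2 (r s : ℝ) : pol2 (r, s + Real.pi, 0, 0) =
    rot ((1, 1), (-1, -1)) (pol2 (r, s, 0, 0)) := by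
  unfold pol2 rot
  simp only [exp0, one_mul, Real.cos_add_pi, Real.sin_add_pi, Complex.ofReal_neg, neg_mul]

theorem D_pi1 (hD : JacP) (r s : ℝ) (u : R4) : fderiv ℝ pol2 (r + Real.pi, s, 0, 0) u =
    rot ((-1, -1), (1, 1)) (fderiv ℝ pol2 (r, s, 0, 0) u) := by
  rw [hD, hD (r, s, 0, 0) u]
  unfold rot
  simp only [exp0, one_mul, Real.cos_add_pi, Real.sin_add_pi, Complex.ofReal_neg]
  refine Prod.ext (Prod.ext ?_ ?_) rfl
  · ring
  · change _ = -1 * _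
    ring

theorem D_pi2 (hD : JacP) (r s : ℝ) (u : R4) : fderiv ℝ pol2 (r, s + Real.pi, 0, 0) u =
    rot ((1, 1), (-1, -1)) (fderiv ℝ pol2 (r, s, 0, 0) u) := by
  rw [hD, hD (r, s, 0, 0) u]
  unfold rot
  simp only [exp0, one_mul, Real.cos_add_pi, Real.sin_add_pi, Complex.ofReal_neg]
  refine Prod.ext rfl (Prod.ext ?_ ?_)
  · ring
  · change _ = -1 * _
    ring

theorem re_pol (r s : ℝ) : IsRe (pol2 (r, s, 0, 0)) := by
  unfold pol2 IsRe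
  simp only [exp0, one_mul, Complex.ofReal_im, and_self]

theorem re_D (hD : JacP) (r s u v : ℝ) : IsRe (fderiv ℝ pol2 (r, s, 0, 0) (u, v, 0, 0)) := by
  rw [hD]
  unfold IsRe
  simp

theorem im_D (hD : JacP) (r s u v : ℝ) : IsIm (fderiv ℝ pol2 (r, s, 0, 0) (0, 0, u, v)) := by
  rw [hD]
  unfold IsIm
  simp

theorem not_O (hD : JacP) (a b : ℤ) (r s u v : ℝ) (huv : ¬ (u = 0 ∧ v = 0)) :
    fderiv ℝ pol2 (r, s, 0, 0) (u, v, 0, 0) ∉ (Mab a b).O (pol2 (r, s, 0, 0)) := by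
  rintro ⟨σ, τ, h⟩
  rw [hD] at h
  have h1 := congrArg (fun P : W2 => P.1.1.re) h
  have h2 := congrArg (fun P : W2 => P.1.2.re) h
  have h3 := congrArg (fun P : W2 => P.2.1.re) h
  have h4 := congrArg (fun P : W2 => P.2.2.re) h
  simp [o1, o2, pol2] at h1 h2 h3 h4
  rw [Complex.sin_ofReal_re] at h1 h3
  rw [Complex.cos_ofReal_re] at h2 h4
  apply huv
  constructor
  · by_contra hu
    have e1 := h1.resolve_right hu
    have e2 := h2.resolve_right hu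
    have e3 := Real.sin_sq_add_cos_sq r
    rw [e1, e2] at e3
    norm_num at e3
  · by_contra hu
    have e1 := h3.resolve_right hu
    have e2 := h4.resolve_right hu
    have e3 := Real.sin_sq_add_cos_sq s
    rw [e1, e2] at e3
    norm_num at e3

end main

/-- T1 -/
theorem goalT1 (hPL : G_PL2) (hBX : G_GBX) : Pool.Agent.Helper61.QT.G_T1 := by
  intro a b gM hab hbase htor
  obtain ⟨hpol, hD⟩ := hPL a b hab
  obtain ⟨hsm, hsymm, hposR, _⟩ := hBX W2 (Mab a b) pol2 Reg2 gM hpol hbase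
  have hD' : JacP := hD
  set h := gB gM pol2 with hh
  have hval : ∀ x u v, h x u v = gM (pol2 x) (fderiv ℝ pol2 x u) (fderiv ℝ pol2 x v) :=
    fun _ _ _ => rfl
  have hrot : ∀ (c : W2), ‖c.1.1‖ = 1 → ‖c.1.2‖ = 1 → ‖c.2.1‖ = 1 → ‖c.2.2‖ = 1 →
      ∀ x x' u v : R4, pol2 x' = rot c (pol2 x) →
      fderiv ℝ pol2 x' u = rot c (fderiv ℝ pol2 x u) →
      fderiv ℝ pol2 x' v = rot c (fderiv ℝ pol2 x v) → h x' u v = h x u v := by
    intro c h1 h2 h3 h4 x x' u v e1 e2 e3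
    rw [hval, hval, e1, e2, e3]
    exact htor.rot c h1 h2 h3 h4 _ (hpol.mem x) _ (hpol.tan x u) _ (hpol.tan x v)
  have hinv : ∀ x u v, h x u v = h (x.1, x.2.1, 0, 0) u v := by
    intro x u v
    refine hrot ((1, Complex.exp (x.2.2.1 * Complex.I)), (1, Complex.exp (x.2.2.2 * Complex.I)))
      norm_one (Complex.norm_exp_ofReal_mul_I _) norm_one (Complex.norm_exp_ofReal_mul_I _)
      _ _ u v (pol_rot x) (D_rot hD' x u) (D_rot hD' x v)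
  have hmix : ∀ r s u v c d : ℝ, h (r, s, 0, 0) (u, v, 0, 0) (0, 0, c, d) = 0 := by
    intro r s u v c d
    rw [hval]
    exact htor.polar _ (hpol.mem (r, s, 0, 0)) _ (hpol.tan (r, s, 0, 0) (u, v, 0, 0)) _
      (re_pol r s) (re_D hD' r s u v) (im_D hD' r s c d)
  have hposA : ∀ r s u v : ℝ, ¬ (u = 0 ∧ v = 0) →
      0 < h (r, s, 0, 0) (u, v, 0, 0) (u, v, 0, 0) := by
    intro r s u v huv
    rw [hval]
    exact hbase.pos _ (hpol.mem (r, s, 0, 0)) _ (hpol.tan (r, s, 0, 0) (u, v, 0, 0))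
      (not_O hD' a b r s u v huv)
  let ι : ℝ × ℝ → R4 := fun z => (z.1, z.2, 0, 0)
  have hι : ContDiff ℝ 2 ι :=
    contDiff_fst.prodMk (contDiff_snd.prodMk (contDiff_const.prodMk contDiff_const))
  have hsmι : ∀ u v : R4, ContDiff ℝ 2 (fun z => h (ι z) u v) := fun u v =>
    (((hsm.comp hι).clm_apply contDiff_const).clm_apply contDiff_const)
  have hB : Blk h (fun z => h (z.1, z.2, 0, 0) (1, 0, 0, 0) (1, 0, 0, 0))
      (fun z => h (z.1, z.2, 0, 0) (1, 0, 0, 0) (0, 1, 0, 0))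
      (fun z => h (z.1, z.2, 0, 0) (0, 1, 0, 0) (0, 1, 0, 0)) := by
    refine ⟨fun y => hinv y _ _, fun y => hinv y _ _, fun y => ?_, fun y => hinv y _ _, ?_, ?_, ?_, ?_⟩
    · rw [hsymm]
      exact hinv y _ _
    · intro y c d
      rw [hinv]
      exact hmix _ _ _ _ _ _
    · intro y c d
      rw [hinv]
      exact hmix _ _ _ _ _ _
    · intro y c d
      rw [hsymm, hinv]
      exact hmix _ _ _ _ _ _
    · intro y c d
      rw [hsymm, hinv]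
      exact hmix _ _ _ _ _ _
  have hpos2 : ∀ z : ℝ × ℝ, 0 < h (z.1, z.2, 0, 0) (1, 0, 0, 0) (1, 0, 0, 0) ∧
      0 < h (z.1, z.2, 0, 0) (1, 0, 0, 0) (1, 0, 0, 0) *
        h (z.1, z.2, 0, 0) (0, 1, 0, 0) (0, 1, 0, 0) -
        h (z.1, z.2, 0, 0) (1, 0, 0, 0) (0, 1, 0, 0) ^ 2 := by
    intro z
    have h1 : 0 < h (z.1, z.2, 0, 0) (1, 0, 0, 0) (1, 0, 0, 0) :=
      hposA z.1 z.2 1 0 (fun h => one_ne_zero h.1)
    refine ⟨h1, ?_⟩
    have h2 := hposA z.1 z.2 (-h (z.1, z.2, 0, 0) (1, 0, 0, 0) (0, 1, 0, 0))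
      (h (z.1, z.2, 0, 0) (1, 0, 0, 0) (1, 0, 0, 0)) (fun h => h1.ne' h.2)
    have hex := expand (h (z.1, z.2, 0, 0)) rfl rfl (hsymm (z.1, z.2, 0, 0) _ _) rfl
      (hB.hz1 (z.1, z.2, 0, 0)) (hB.hz2 (z.1, z.2, 0, 0))
      (hB.hz1' (z.1, z.2, 0, 0)) (hB.hz2' (z.1, z.2, 0, 0))
    rw [hex] at h2
    have hz : ((0 : ℝ), (0 : ℝ), (0 : ℝ), (0 : ℝ)) = (0 : R4) := rfl
    simp only [hz, map_zero, add_zero] at h2
    have h3 : 0 < h (z.1, z.2, 0, 0) (1, 0, 0, 0) (1, 0, 0, 0) *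
        (h (z.1, z.2, 0, 0) (1, 0, 0, 0) (1, 0, 0, 0) *
        h (z.1, z.2, 0, 0) (0, 1, 0, 0) (0, 1, 0, 0) -
        h (z.1, z.2, 0, 0) (1, 0, 0, 0) (0, 1, 0, 0) ^ 2) := by
      refine lt_of_lt_of_eq h2 ?_
      ring
    exact (mul_pos_iff_of_pos_left h1).1 h3
  refine ⟨fun z => h (z.1, z.2, 0, 0) (1, 0, 0, 0) (1, 0, 0, 0),
    fun z => h (z.1, z.2, 0, 0) (1, 0, 0, 0) (0, 1, 0, 0),
    fun z => h (z.1, z.2, 0, 0) (0, 1, 0, 0) (0, 1, 0, 0), hsmι _ _, hsmι _ _, hsmι _ _,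
    ?_, ?_, hpos2, ?_⟩
  · intro r s
    have hp : ∀ u v : R4, h (r + Real.pi, s, 0, 0) u v = h (r, s, 0, 0) u v := fun u v =>
      hrot ((-1, -1), (1, 1)) (by simp) (by simp) (by simp) (by simp) _ _ u v (pol_pi1 r s)
        (D_pi1 hD' r s u) (D_pi1 hD' r s v)
    exact ⟨hp _ _, hp _ _, hp _ _⟩
  · intro r s
    have hp : ∀ u v : R4, h (r, s + Real.pi, 0, 0) u v = h (r, s, 0, 0) u v := fun u v =>
      hrot ((1, 1), (-1, -1)) (by simp) (by simp) (by simp) (by simp) _ _ u v (pol_pi2 r s)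
        (D_pi2 hD' r s u) (D_pi2 hD' r s v)
    exact ⟨hp _ _, hp _ _, hp _ _⟩
  · intro x hx K hK
    refine curv_form hB (hsmι _ _) (hsmι _ _) (hsmι _ _) x ?_ (hpos2 (x.1, x.2.1)).2.ne' K hK
    intro c d hcd
    by_contra hne
    have h1 : ((0 : ℝ), (0 : ℝ), c, d) ≠ (0 : R4) := by
      intro h2
      apply hne
      have h3 := congrArg (fun y : R4 => y.2.2.1) h2
      have h4 := congrArg (fun y : R4 => y.2.2.2) h2
      exact ⟨h3, h4⟩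
    exact (hposR x hx _ h1).ne' hcd

end Pool.Agent.Helper93.QT
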