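import Pool.Agent.Helper61.QT.GoalsH
import Pool.Agent.Helper78.QS.EJ

/-!
# Project QT (MP_0ebdb3_gt), packet QT-EJ2: the splitting on the box
-/

set_option autoImplicit false

open Set

namespace Pool.Agent.Helper93.QT

open Pool.Agent.Helper61 Pool.Agent.Helper61.QG Pool.Agent.Helper61.QT
open Pool.Agent.Helper61.QS (V En tr rk R4 UC IsIso compr)
open Pool.Agent.Helper78.QS (cj cj_mul star_cj cj_one cj_zero cj_sum cj_comp tr_cj continuous_cj LL
  comp_congr)

variable {n k : ℕ} {a b : ℤ} {ε R T : R4 → En n} {J : V k →L[ℝ] V n}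

theorem isoL2 (h : Hol2 a b ε R T) (hJ : IsIso (ε (0, 0, 0, 0)) J) (x : R4) :
    IsIso (ε x) (LL R T J x) := by
  have hu : T x * R (x.1, 0, x.2.2.1, x.2.2.2) ∈ unitary (En n) :=
    Submonoid.mul_mem _ (h.uT _) (h.uR _)
  have h1 : star (T x * R (x.1, 0, x.2.2.1, x.2.2.2)) * (T x * R (x.1, 0, x.2.2.1, x.2.2.2)) = 1 :=
    (Unitary.mem_iff.1 hu).1
  have h2 : (T x * R (x.1, 0, x.2.2.1, x.2.2.2)) * star (T x * R (x.1, 0, x.2.2.1, x.2.2.2)) = 1 :=
    (Unitary.mem_iff.1 hu).2
  have hc : ε x * (T x * R (x.1, 0, x.2.2.1, x.2.2.2)) =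
      (T x * R (x.1, 0, x.2.2.1, x.2.2.2)) * ε (0, 0, 0, 0) := by
    obtain ⟨r, s, α, β⟩ := x
    have a1 := h.iT r s α β
    have a2 := h.iR r 0 α β
    have a3 : ε (0, 0, α, β) = ε (0, 0, 0, 0) := by
      rw [(h.r0 0 α β).1, (h.s0 0 0 β).1]
    simp only
    rw [← mul_assoc, a1, mul_assoc, a2, a3, mul_assoc]
  constructor
  · rw [LL, ContinuousLinearMap.adjoint_comp]
    have h3 : ((ContinuousLinearMap.adjoint J).comp
        (ContinuousLinearMap.adjoint (T x * R (x.1, 0, x.2.2.1, x.2.2.2)))).comp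
          ((T x * R (x.1, 0, x.2.2.1, x.2.2.2)).comp J) =
        (ContinuousLinearMap.adjoint J).comp
          ((star (T x * R (x.1, 0, x.2.2.1, x.2.2.2)) *
            (T x * R (x.1, 0, x.2.2.1, x.2.2.2))).comp J) := rfl
    rw [h3, h1]
    exact hJ.left
  · rw [LL, ContinuousLinearMap.adjoint_comp]
    have h3 : ((T x * R (x.1, 0, x.2.2.1, x.2.2.2)).comp J).comp
        ((ContinuousLinearMap.adjoint J).comp
          (ContinuousLinearMap.adjoint (T x * R (x.1, 0, x.2.2.1, x.2.2.2)))) =
        (T x * R (x.1, 0, x.2.2.1, x.2.2.2)) * (J.comp (ContinuousLinearMap.adjoint J)) *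
          star (T x * R (x.1, 0, x.2.2.1, x.2.2.2)) := rfl
    rw [h3, hJ.right, ← hc, mul_assoc, h2, mul_one]

theorem continuous_LL2 (h : Hol2 a b ε R T) (J : V k →L[ℝ] V n) : Continuous (LL R T J) := by
  have h1 := h.cR
  have h2 := h.cT
  have h3 : Continuous (fun x : R4 => R (x.1, 0, x.2.2.1, x.2.2.2)) := h1.comp (by fun_prop)
  exact (h2.mul h3).clm_comp continuous_const

/-- rescaling of the box to the unit square -/
noncomputable def sc (x : R4) : R4 := (2 * x.1 / Real.pi, 2 * x.2.1 / Real.pi, x.2.2.1, x.2.2.2)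

theorem sc_le {t : ℝ} (h0 : 0 ≤ t) (h1 : t ≤ Real.pi / 2) :
    0 ≤ 2 * t / Real.pi ∧ 2 * t / Real.pi ≤ 1 := by
  have hp := Real.pi_pos
  refine ⟨by positivity, ?_⟩
  rw [div_le_one hp]
  linarith

theorem sc_mem {x : R4} (hx : x ∈ Box2) : sc x ∈ Sq := by
  obtain ⟨h1, h2, h3, h4⟩ := hx
  exact ⟨(sc_le h1 h2).1, (sc_le h1 h2).2, (sc_le h3 h4).1, (sc_le h3 h4).2⟩

theorem sc_one : 2 * (Real.pi / 2) / Real.pi = 1 := by
  have := Real.pi_ne_zero
  field_simp

/-- EJ2 -/
theorem goalEJ2 (hLP : G_LP2) : Pool.Agent.Helper61.QT.G_EJ2 := by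
  intro a b n k ε R T J hab h hJ hQ
  obtain ⟨-, hg, hf⟩ := hLP a b n k ε R T J hab h hJ
  obtain ⟨N, Q, cQ, pQ, oQ, sQ, perQ, rQ, tQ⟩ := hQ
  have hL := fun x => (isoL2 h hJ x).left
  refine ⟨N, fun j x => cj (LL R T J x) (Q j (sc x)), ?_, ?_, ?_, ?_⟩
  · intro j
    constructor
    · have h0 : ContinuousOn (fun x : R4 => Q j (sc x)) Box2 :=
        (cQ j).comp (by unfold sc; fun_prop) (fun x hx => sc_mem hx)
      have h3 : ContinuousOn (fun x : R4 => (LL R T J x, Q j (sc x))) Box2 :=
        (continuous_LL2 h J).continuousOn.prodMk h0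
      exact continuous_cj.comp_continuousOn h3
    · refine ⟨?_, ?_, ?_, ?_, ?_, ?_⟩
      · intro r s α β hx
        have e1 : LL R T J (r, s, α + 2 * Real.pi, β) = LL R T J (r, s, α, β) := by
          simp only [LL]
          rw [(h.perα r s α β).2.2, (h.perα r 0 α β).2.1]
        have e2 : Q j (sc (r, s, α + 2 * Real.pi, β)) = Q j (sc (r, s, α, β)) :=
          (perQ j _ _ α β (sc_mem hx)).1
        simp only [e1, e2]
      · intro r s α β hx
        have e1 : LL R T J (r, s, α, β + 2 * Real.pi) = LL R T J (r, s, α, β) := by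
          simp only [LL]
          rw [(h.perβ r s α β).2.2, (h.perβ r 0 α β).2.1]
        have e2 : Q j (sc (r, s, α, β + 2 * Real.pi)) = Q j (sc (r, s, α, β)) :=
          (perQ j _ _ α β (sc_mem hx)).2
        simp only [e1, e2]
      · intro s α β h0 h1
        have e1 : LL R T J (0, s, α, β) = LL R T J (0, s, 0, β) := by
          simp only [LL]
          rw [h.R0, h.R0, (h.r0 s α β).2]
        have e2 : Q j (sc (0, s, α, β)) = Q j (sc (0, s, 0, β)) := by
          unfold sc
          simp only [mul_zero, zero_div]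
          exact (rQ j _ α β (sc_le h0 h1).1 (sc_le h0 h1).2).1
        simp only [e1, e2]
      · intro s α β h0 h1
        have e1 : LL R T J (Real.pi / 2, s, α, β) =
            ((T (Real.pi / 2, s, 0, β + a * α)).comp (J10 J R)).comp (lg J R α) := by
          simp only [LL]
          rw [(h.r1 s α β).2, (h.s0 (Real.pi / 2) α β).2]
          calc (T (Real.pi / 2, s, 0, β + a * α) * R (Real.pi / 2, 0, α, 0)).comp J
              = (T (Real.pi / 2, s, 0, β + a * α)).comp ((R (Real.pi / 2, 0, α, 0)).comp J) := rfl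
            _ = _ := by rw [hg α]; rfl
        have e2 : LL R T J (Real.pi / 2, s, 0, β + a * α) =
            (T (Real.pi / 2, s, 0, β + a * α)).comp (J10 J R) := by
          simp only [LL]
          rw [(h.s0 (Real.pi / 2) 0 (β + a * α)).2]
          rfl
        show cj (LL R T J (Real.pi / 2, s, α, β)) (Q j (sc (Real.pi / 2, s, α, β))) =
          cj (LL R T J (Real.pi / 2, s, 0, β + a * α)) (Q j (sc (Real.pi / 2, s, 0, β + a * α)))
        rw [e1, e2, cj_comp]
        congr 1
        unfold sc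
        simp only [sc_one]
        exact (rQ j _ α β (sc_le h0 h1).1 (sc_le h0 h1).2).2.symm
      · intro r α β h0 h1
        have e1 : LL R T J (r, 0, α, β) = LL R T J (r, 0, α, 0) := by
          simp only [LL]
          rw [h.T0, h.T0, (h.s0 r α β).2]
        have e2 : Q j (sc (r, 0, α, β)) = Q j (sc (r, 0, α, 0)) := by
          unfold sc
          simp only [mul_zero, zero_div]
          exact (tQ j _ α β (sc_le h0 h1).1 (sc_le h0 h1).2).1
        simp only [e1, e2]
      · intro r α β h0 h1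
        have e0 : ∀ α' β' : ℝ, LL R T J (r, Real.pi / 2, α', β') =
            (R (r, Real.pi / 2, α' + b * β', 0)).comp ((T (0, Real.pi / 2, 0, β')).comp J) := by
          intro α' β'
          have c := comp_congr hJ (h.comm r (Real.pi / 2) α' β')
          rw [(h.s1 r α' β').2, (h.r0 (Real.pi / 2) α' β').2] at c
          simp only [LL]
          rw [c]
          rfl
        have e1 : LL R T J (r, Real.pi / 2, α, β) =
            ((R (r, Real.pi / 2, α + b * β, 0)).comp (J01 J T)).comp (lf J T β) := by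
          rw [e0, hf β]
          rfl
        have e2 : LL R T J (r, Real.pi / 2, α + b * β, 0) =
            (R (r, Real.pi / 2, α + b * β, 0)).comp (J01 J T) := by
          rw [e0, mul_zero, add_zero]
          rfl
        show cj (LL R T J (r, Real.pi / 2, α, β)) (Q j (sc (r, Real.pi / 2, α, β))) =
          cj (LL R T J (r, Real.pi / 2, α + b * β, 0)) (Q j (sc (r, Real.pi / 2, α + b * β, 0)))
        rw [e1, e2, cj_comp]
        congr 1
        unfold sc
        simp only [sc_one]
        exact (tQ j _ α β (sc_le h0 h1).1 (sc_le h0 h1).2).2.symm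
  · intro j x hx
    obtain ⟨h1, h2, h3⟩ := pQ j (sc x) (sc_mem hx)
    refine ⟨?_, ?_, ?_⟩
    · simp only
      rw [cj_mul (hL x), h1]
    · simp only
      rw [star_cj, h2]
    · simp only
      rw [tr_cj (hL x)]
      exact h3
  · intro i j hij x hx
    simp only
    rw [cj_mul (hL x), oQ i j hij _ (sc_mem hx), cj_zero]
  · intro x hx
    simp only
    rw [cj_sum, sQ _ (sc_mem hx), cj_one]
    exact (isoL2 h hJ x).right

end Pool.Agent.Helper93.QT
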